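import Mathlib

set_option linter.style.longLine false
set_option linter.unusedVariables false
set_option linter.unusedSectionVars false

open MeasureTheory Set Filter Topology Metric

namespace Pool.Agent.Lib.MP_70ee11_an

/-- weight -/
noncomputable def wt (α : ℝ) (z : ℂ) : ℝ := (1 + α) * (1 - ‖z‖ ^ 2) ^ α / Real.pi

/-- measure -/
noncomputable def mu (α : ℝ) : Measure ℂ := 
  (volume.restrict (ball (0:ℂ) 1)).withDensity (fun z : ℂ => ENNReal.ofReal (wt α z))

lemma measurable_wt (α : ℝ) : Measurable (wt α) := by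
  unfold wt
  fun_prop

lemma one_sub_pos {z : ℂ} (hz : z ∈ ball (0:ℂ) 1) : 0 < 1 - ‖z‖ ^ 2 := by
  rw [mem_ball_zero_iff] at hz
  nlinarith [norm_nonneg z]

variable {α : ℝ} (hα : 0 < α)

include hα in
lemma wt_pos {z : ℂ} (hz : z ∈ ball (0:ℂ) 1) : 0 < wt α z := by
  unfold wt
  have h1 := one_sub_pos hz
  have := Real.pi_pos
  positivity

include hα in
lemma wt_le {z : ℂ} (hz : z ∈ ball (0:ℂ) 1) : wt α z ≤ (1 + α) / Real.pi := by
  unfold wt
  have h1 := one_sub_pos hz
  have h2 : (1 - ‖z‖ ^ 2) ^ α ≤ 1 := by
    apply Real.rpow_le_one h1.le _ hα.le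
    nlinarith [sq_nonneg ‖z‖]
  have := Real.pi_pos
  gcongr
  nlinarith

include hα in
lemma integral_mu (f : ℂ → ℂ) : ∫ z, f z ∂(mu α) = ∫ z in ball (0:ℂ) 1, (wt α z : ℂ) * f z := by
  unfold mu
  rw [integral_withDensity_eq_integral_toReal_smul (measurable_wt α).ennreal_ofReal (by simp)]
  apply setIntegral_congr_fun measurableSet_ball
  intro z hz
  simp only
  rw [ENNReal.toReal_ofReal (wt_pos hα hz).le, Complex.real_smul]

include hα in
lemma integrable_mu (f : ℂ → ℂ) : Integrable f (mu α) ↔ IntegrableOn (fun z => (wt α z : ℂ) * f z) (ball (0:ℂ) 1) := by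
  unfold mu
  rw [integrable_withDensity_iff_integrable_smul' (measurable_wt α).ennreal_ofReal (by simp), IntegrableOn]
  apply integrable_congr
  filter_upwards [ae_restrict_mem measurableSet_ball] with z hz
  rw [ENNReal.toReal_ofReal (wt_pos hα hz).le, Complex.real_smul]

include hα in
lemma mu_finite : IsFiniteMeasure (mu α) := by
  constructor
  unfold mu
  rw [withDensity_apply _ MeasurableSet.univ, Measure.restrict_univ]
  calc ∫⁻ z in ball (0:ℂ) 1, ENNReal.ofReal (wt α z) ≤ ∫⁻ z in ball (0:ℂ) 1, ENNReal.ofReal ((1 + α) / Real.pi) := by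
        apply setLIntegral_mono measurable_const
        intro z hz
        exact ENNReal.ofReal_le_ofReal (wt_le hα hz)
    _ < ⊤ := by
        rw [setLIntegral_const]
        exact ENNReal.mul_lt_top ENNReal.ofReal_lt_top measure_ball_lt_top

include hα in
lemma mu_pos : 0 < (mu α).real univ := by
  have := mu_finite hα
  apply ENNReal.toReal_pos _ (measure_ne_top _ _)
  intro h0
  unfold mu at h0
  rw [withDensity_apply _ MeasurableSet.univ, Measure.restrict_univ, lintegral_eq_zero_iff (measurable_wt α).ennreal_ofReal] at h0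
  have h1 : ∀ᵐ z ∂(volume.restrict (ball (0:ℂ) 1)), False := by
    filter_upwards [h0, ae_restrict_mem measurableSet_ball] with z h2 h3
    simp only [Pi.zero_apply, ENNReal.ofReal_eq_zero] at h2
    linarith [wt_pos hα h3]
  rw [eventually_false_iff_eq_bot, ae_eq_bot, Measure.restrict_eq_zero] at h1
  have h2 : 0 < volume (ball (0:ℂ) 1) := measure_ball_pos _ _ one_pos
  rw [h1] at h2
  exact lt_irrefl _ h2

lemma ae_mem_ball : ∀ᵐ z ∂(mu α), z ∈ ball (0:ℂ) 1 := by
  unfold mu
  exact (withDensity_absolutelyContinuous _ _).ae_le (ae_restrict_mem measurableSet_ball)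

/-- mean value over rotations -/
lemma circle_mean {F : ℂ → ℂ} (hF : DifferentiableOn ℂ F (ball (0:ℂ) 1)) {z : ℂ} (hz : z ∈ ball (0:ℂ) 1) : 
    ∫ θ in Ioc 0 (2 * Real.pi), F (Complex.exp (θ * Complex.I) * z) = 2 * Real.pi * F 0 := by
  have hz' : ‖z‖ < 1 := by simpa using hz
  have h1 : DiffContOnCl ℂ (fun ζ : ℂ => F (ζ * z)) (ball (0:ℂ) |1|) := by
    apply DifferentiableOn.diffContOnCl
    intro ζ hζ
    have hζ' : ‖ζ‖ ≤ 1 := by
      have : ζ ∈ closedBall (0:ℂ) |1| := closure_ball_subset_closedBall hζ
      simpa using this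
    have hmem : ζ * z ∈ ball (0:ℂ) 1 := by
      rw [mem_ball_zero_iff, norm_mul]
      nlinarith [norm_nonneg z, norm_nonneg ζ]
    have h2 : DifferentiableAt ℂ F (ζ * z) := hF.differentiableAt (isOpen_ball.mem_nhds hmem)
    have h3 : DifferentiableAt ℂ (fun ζ : ℂ => ζ * z) ζ := by fun_prop
    exact (DifferentiableAt.comp (g := F) ζ h2 h3).differentiableWithinAt
  have h2 := h1.circleAverage
  rw [Real.circleAverage_def, zero_mul, intervalIntegral.integral_of_le (by positivity)] at h2
  have hpi : (2 * Real.pi : ℝ) ≠ 0 := by positivity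
  have h3 : (∫ θ in Ioc 0 (2 * Real.pi), F (circleMap 0 1 θ * z)) = (2 * Real.pi : ℝ) • F 0 := by
    rw [← h2, smul_smul, mul_inv_cancel₀ hpi, one_smul]
  simp only [circleMap_zero, Complex.ofReal_one, one_mul] at h3
  rw [h3, Complex.real_smul]
  push_cast
  ring

include hα in
/-- mean value property for the weighted measure -/
lemma mean_value {F : ℂ → ℂ} (hF : DifferentiableOn ℂ F (ball (0:ℂ) 1)) (hi : Integrable F (mu α)) : 
    ∫ z, F z ∂(mu α) = (mu α).real univ * F 0 := by
  have hfin := mu_finite hα
  have key : ∀ G : ℂ → ℂ, DifferentiableOn ℂ G (ball (0:ℂ) 1) → Integrable G (mu α) → 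
      2 * Real.pi * ∫ z in ball (0:ℂ) 1, (wt α z : ℂ) * G z = ∫ z in ball (0:ℂ) 1, (wt α z : ℂ) * (2 * Real.pi * G 0) := by
    intro G hG hGi
    rw [integrable_mu hα] at hGi
    set H : ℂ → ℂ := (ball (0:ℂ) 1).indicator (fun z => (wt α z : ℂ) * G z) with hH
    have hHi : Integrable H volume := hGi.integrable_indicator measurableSet_ball
    let μθ : Measure ℝ := volume.restrict (Ioc 0 (2 * Real.pi))
    have hmp : MeasurePreserving (fun p : ℝ × ℂ => (p.1, Complex.exp (p.1 * Complex.I) * p.2)) (μθ.prod volume) (μθ.prod volume) := by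
      apply MeasurePreserving.skew_product (MeasurePreserving.id μθ) (g := fun θ z => Complex.exp (θ * Complex.I) * z)
      · have : Continuous (Function.uncurry fun (θ : ℝ) (z : ℂ) => Complex.exp (θ * Complex.I) * z) := by
          unfold Function.uncurry
          fun_prop
        exact this.measurable
      · filter_upwards with θ
        have := (rotation (Circle.exp θ)).measurePreserving.map_eq
        have h2 : (fun z : ℂ => Complex.exp (θ * Complex.I) * z) = rotation (Circle.exp θ) := by
          funext z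
          rw [rotation_apply, Circle.coe_exp]
        rw [h2]; exact this
    have hprod : Integrable (fun p : ℝ × ℂ => H (Complex.exp (p.1 * Complex.I) * p.2)) (μθ.prod volume) := by
      have h1 : Integrable (fun p : ℝ × ℂ => H p.2) (μθ.prod volume) := hHi.comp_snd μθ
      exact hmp.integrable_comp_of_integrable h1
    have hswap := integral_integral_swap (f := fun (θ : ℝ) (z : ℂ) => H (Complex.exp (θ * Complex.I) * z)) hprod
    have hleft : ∀ θ : ℝ, ∫ z, H (Complex.exp (θ * Complex.I) * z) = ∫ z, H z := by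
      intro θ
      have h1 := (rotation (Circle.exp θ)).measurePreserving.integral_comp' (f := (rotation (Circle.exp θ)).toMeasurableEquiv) H
      exact h1
    have hright : ∀ z : ℂ, ∫ θ, H (Complex.exp (θ * Complex.I) * z) ∂μθ = (ball (0:ℂ) 1).indicator (fun z => (wt α z : ℂ) * (2 * Real.pi * G 0)) z := by
      intro z
      have hnorm : ∀ θ : ℝ, ‖Complex.exp (θ * Complex.I) * z‖ = ‖z‖ := by
        intro θ; rw [norm_mul, Complex.norm_exp_ofReal_mul_I, one_mul]
      by_cases hz : z ∈ ball (0:ℂ) 1
      · rw [indicator_of_mem hz, ← circle_mean hG hz, ← integral_const_mul]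
        congr 1
        funext θ
        have hm : Complex.exp (θ * Complex.I) * z ∈ ball (0:ℂ) 1 := by
          rw [mem_ball_zero_iff] at hz ⊢
          rw [hnorm]; exact hz
        rw [hH, indicator_of_mem hm]
        congr 2
        unfold wt
        rw [hnorm]
      · rw [indicator_of_notMem hz]
        have : ∀ θ : ℝ, H (Complex.exp (θ * Complex.I) * z) = 0 := by
          intro θ
          rw [hH, indicator_of_notMem]
          rw [mem_ball_zero_iff] at hz ⊢
          rw [hnorm]; exact hz
        simp only [this, integral_zero]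
    simp only [hleft, hright] at hswap
    rw [integral_const, integral_indicator measurableSet_ball] at hswap
    have hμθ : μθ.real univ = 2 * Real.pi := by
      simp only [μθ, measureReal_restrict_apply_univ]
      rw [Real.volume_real_Ioc_of_le (by positivity), sub_zero]
    rw [hμθ, Complex.real_smul, integral_indicator measurableSet_ball] at hswap
    rw [← hswap]
    push_cast
    ring
  have h1 := key F hF hi
  have h2 := key (fun _ => 1) (differentiableOn_const _) (integrable_const _)
  rw [integral_mu hα]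
  have h3 : ∫ z, (1:ℂ) ∂(mu α) = (mu α).real univ := by simp
  rw [integral_mu hα] at h3
  simp only [mul_one] at h2 h3
  have h4 : ∫ z in ball (0:ℂ) 1, (wt α z : ℂ) * (2 * Real.pi * F 0) = (2 * Real.pi * F 0) * (mu α).real univ := by
    rw [integral_mul_const, h3]; ring
  rw [h4] at h1
  have hpi : (2 * Real.pi : ℂ) ≠ 0 := by
    have := Real.pi_pos
    norm_cast
    positivity
  apply mul_left_cancel₀ hpi
  rw [h1]; ring

end Pool.Agent.Lib.MP_70ee11_an
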