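import Mathlib
import Pool.Agent.Lib.MP_70ee11_an.Measure

set_option linter.style.longLine false
set_option linter.unusedVariables false
set_option linter.unusedSectionVars false

open MeasureTheory Set Filter Topology Metric

namespace Pool.Agent.Lib.MP_70ee11_an

/-- the kernel -/
noncomputable def kern (α : ℝ) (c z : ℂ) : ℂ := Complex.exp (-((α:ℂ) + 2) * Complex.log (1 - (starRingEnd ℂ) c * z))

/-- the disc automorphism -/
noncomputable def phi (c z : ℂ) : ℂ := (c - z) / (1 - (starRingEnd ℂ) c * z)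

lemma re_pos {c z : ℂ} (hc : c ∈ ball (0:ℂ) 1) (hz : ‖z‖ ≤ 1) : 0 < (1 - (starRingEnd ℂ) c * z).re := by
  rw [mem_ball_zero_iff] at hc
  have h1 : ‖(starRingEnd ℂ) c * z‖ < 1 := by
    rw [norm_mul, RCLike.norm_conj]
    nlinarith [norm_nonneg z, norm_nonneg c]
  have h2 := Complex.re_le_norm ((starRingEnd ℂ) c * z)
  simp only [Complex.sub_re, Complex.one_re]
  linarith

lemma ne_zero_of_re {u : ℂ} (h : 0 < u.re) : u ≠ 0 := by
  rintro rfl; simp at h

lemma one_sub_normSq_phi {c z : ℂ} (hc : c ∈ ball (0:ℂ) 1) (hz : z ∈ ball (0:ℂ) 1) : 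
    1 - ‖phi c z‖ ^ 2 = (1 - ‖c‖ ^ 2) * (1 - ‖z‖ ^ 2) / ‖1 - (starRingEnd ℂ) c * z‖ ^ 2 := by
  have hu := ne_zero_of_re (re_pos hc (mem_ball_zero_iff.mp hz).le)
  have hu' : ‖1 - (starRingEnd ℂ) c * z‖ ^ 2 ≠ 0 := by
    have := norm_pos_iff.mpr hu
    positivity
  unfold phi
  rw [norm_div, div_pow, eq_div_iff hu', sub_mul, one_mul, div_mul_cancel₀ _ hu']
  simp only [← Complex.normSq_eq_norm_sq, Complex.normSq_apply]
  simp only [Complex.sub_re, Complex.sub_im, Complex.mul_re, Complex.mul_im, Complex.conj_re, Complex.conj_im, Complex.one_re, Complex.one_im]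
  ring

lemma phi_mem {c z : ℂ} (hc : c ∈ ball (0:ℂ) 1) (hz : z ∈ ball (0:ℂ) 1) : phi c z ∈ ball (0:ℂ) 1 := by
  have h := one_sub_normSq_phi hc hz
  have hu := ne_zero_of_re (re_pos hc (mem_ball_zero_iff.mp hz).le)
  have h1 := one_sub_pos hc
  have h2 := one_sub_pos hz
  have h3 : 0 < ‖1 - (starRingEnd ℂ) c * z‖ := norm_pos_iff.mpr hu
  have h4 : 0 < 1 - ‖phi c z‖ ^ 2 := by rw [h]; positivity
  rw [mem_ball_zero_iff]
  nlinarith [norm_nonneg (phi c z)]

lemma one_sub_conj_phi {c z : ℂ} (hc : c ∈ ball (0:ℂ) 1) (hz : z ∈ ball (0:ℂ) 1) : 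
    1 - (starRingEnd ℂ) c * phi c z = ((1 - ‖c‖ ^ 2 : ℝ) : ℂ) / (1 - (starRingEnd ℂ) c * z) := by
  have hu := ne_zero_of_re (re_pos hc (mem_ball_zero_iff.mp hz).le)
  unfold phi
  rw [eq_div_iff hu]
  have : ((1 - ‖c‖ ^ 2 : ℝ) : ℂ) = 1 - (starRingEnd ℂ) c * c := by
    push_cast
    rw [← Complex.normSq_eq_conj_mul_self, Complex.normSq_eq_norm_sq]
    push_cast; rfl
  rw [this]
  field_simp
  ring

lemma phi_phi {c z : ℂ} (hc : c ∈ ball (0:ℂ) 1) (hz : z ∈ ball (0:ℂ) 1) : phi c (phi c z) = z := by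
  have hu := ne_zero_of_re (re_pos hc (mem_ball_zero_iff.mp hz).le)
  have hu2 := ne_zero_of_re (re_pos hc (mem_ball_zero_iff.mp (phi_mem hc hz)).le)
  rw [phi, div_eq_iff hu2, one_sub_conj_phi hc hz]
  unfold phi
  have : ((1 - ‖c‖ ^ 2 : ℝ) : ℂ) = 1 - (starRingEnd ℂ) c * c := by
    push_cast
    rw [← Complex.normSq_eq_conj_mul_self, Complex.normSq_eq_norm_sq]
    push_cast; rfl
  rw [this, ← mul_div_assoc, eq_div_iff hu, sub_mul, div_mul_cancel₀ _ hu]
  ring

lemma phi_zero (c : ℂ) : phi c 0 = c := by simp [phi]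

lemma phi_image {c : ℂ} (hc : c ∈ ball (0:ℂ) 1) : phi c '' (ball (0:ℂ) 1) = ball (0:ℂ) 1 := by
  apply Subset.antisymm
  · rintro _ ⟨z, hz, rfl⟩; exact phi_mem hc hz
  · intro z hz; exact ⟨phi c z, phi_mem hc hz, phi_phi hc hz⟩

lemma phi_inj {c : ℂ} (hc : c ∈ ball (0:ℂ) 1) : InjOn (phi c) (ball (0:ℂ) 1) := by
  intro z hz w hw h
  rw [← phi_phi hc hz, ← phi_phi hc hw, h]

/-- derivative -/
noncomputable def dphi (c z : ℂ) : ℂ := -((1 - ‖c‖ ^ 2 : ℝ) : ℂ) / (1 - (starRingEnd ℂ) c * z) ^ 2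

lemma hasDerivAt_phi {c z : ℂ} (hc : c ∈ ball (0:ℂ) 1) (hz : z ∈ ball (0:ℂ) 1) : HasDerivAt (phi c) (dphi c z) z := by
  have hu := ne_zero_of_re (re_pos hc (mem_ball_zero_iff.mp hz).le)
  have h1 : HasDerivAt (fun z : ℂ => c - z) (-1) z := by
    simpa using (hasDerivAt_id z).const_sub c
  have h2 : HasDerivAt (fun z : ℂ => 1 - (starRingEnd ℂ) c * z) (-(starRingEnd ℂ) c) z := by
    simpa using ((hasDerivAt_id z).const_mul ((starRingEnd ℂ) c)).const_sub 1
  have h3 := h1.div h2 hu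
  have he : dphi c z = ((-1) * (1 - (starRingEnd ℂ) c * z) - (c - z) * (-(starRingEnd ℂ) c)) / (1 - (starRingEnd ℂ) c * z) ^ 2 := by
    unfold dphi
    congr 1
    have : ((1 - ‖c‖ ^ 2 : ℝ) : ℂ) = 1 - (starRingEnd ℂ) c * c := by
      push_cast
      rw [← Complex.normSq_eq_conj_mul_self, Complex.normSq_eq_norm_sq]
      push_cast; rfl
    rw [this]
    ring
  rw [he]
  exact h3

lemma det_complex (w : ℂ) : ((ContinuousLinearMap.toSpanSingleton ℂ w : ℂ →L[ℂ] ℂ).restrictScalars ℝ).det = ‖w‖ ^ 2 := by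
  have h1 : (((ContinuousLinearMap.toSpanSingleton ℂ w : ℂ →L[ℂ] ℂ).restrictScalars ℝ : ℂ →L[ℝ] ℂ) : ℂ →ₗ[ℝ] ℂ) = Algebra.lmul ℝ ℂ w := by
    ext x
    simp [mul_comm]
  rw [ContinuousLinearMap.det, h1, ← Algebra.norm_apply, Algebra.norm_complex_apply, Complex.normSq_eq_norm_sq]

lemma log_div_real {s : ℝ} (hs : 0 < s) {u : ℂ} (hu : 0 < u.re) : Complex.log ((s:ℂ) / u) = Real.log s - Complex.log u := by
  have hu0 := ne_zero_of_re hu
  have harg : |Complex.arg u| < Real.pi / 2 := Complex.abs_arg_lt_pi_div_two_iff.mpr (Or.inl hu)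
  rw [abs_lt] at harg
  have h1 : (s:ℂ) / u = Complex.exp (Real.log s - Complex.log u) := by
    rw [Complex.exp_sub, Complex.exp_log hu0, ← Complex.ofReal_exp, Real.exp_log hs]
  rw [h1, Complex.log_exp]
  · simp only [Complex.sub_im, Complex.ofReal_im, Complex.log_im]
    linarith [harg.2, Real.pi_pos]
  · simp only [Complex.sub_im, Complex.ofReal_im, Complex.log_im]
    linarith [harg.1, Real.pi_pos]

lemma pointwise (α : ℝ) {c z : ℂ} (hc : c ∈ ball (0:ℂ) 1) (hz : z ∈ ball (0:ℂ) 1) : 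
    ((‖dphi c z‖ ^ 2 : ℝ) : ℂ) * (wt α (phi c z) * (starRingEnd ℂ) (kern α c (phi c z))) = wt α z * kern α c z := by
  have hre := re_pos hc (mem_ball_zero_iff.mp hz).le
  have hu := ne_zero_of_re hre
  set u := 1 - (starRingEnd ℂ) c * z with hu_def
  have hs := one_sub_pos hc
  have hr := one_sub_pos hz
  set s : ℝ := 1 - ‖c‖ ^ 2 with hs_def
  set r : ℝ := 1 - ‖z‖ ^ 2 with hr_def
  have hun : 0 < ‖u‖ := norm_pos_iff.mpr hu
  set lu : ℝ := Real.log ‖u‖ with hlu
  have hlu2 : 2 * (lu : ℂ) = Complex.log u + (starRingEnd ℂ) (Complex.log u) := by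
    rw [Complex.add_conj, Complex.log_re]
    push_cast; rfl
  have e1 : ((‖dphi c z‖ ^ 2 : ℝ) : ℂ) = Complex.exp (2 * Real.log s - 4 * lu) := by
    have : ‖dphi c z‖ ^ 2 = Real.exp (2 * Real.log s - 4 * lu) := by
      unfold dphi
      rw [norm_div, norm_neg, Complex.norm_real, Real.norm_of_nonneg hs.le, norm_pow, Real.exp_sub, 
        mul_comm (2:ℝ), mul_comm (4:ℝ), Real.exp_mul, Real.exp_mul, Real.exp_log hs, hlu, Real.exp_log hun, div_pow]
      norm_cast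
      rw [← pow_mul]
    rw [this]; push_cast; rfl
  have e2 : ((wt α (phi c z) : ℝ) : ℂ) = ((1 + α) / Real.pi : ℝ) * Complex.exp (α * (Real.log s + Real.log r - 2 * lu)) := by
    have : wt α (phi c z) = (1 + α) / Real.pi * Real.exp (α * (Real.log s + Real.log r - 2 * lu)) := by
      unfold wt
      rw [one_sub_normSq_phi hc hz]
      have h1 : s * r / ‖u‖ ^ 2 = Real.exp (Real.log s + Real.log r - 2 * lu) := by
        rw [Real.exp_sub, Real.exp_add, Real.exp_log hs, Real.exp_log hr, mul_comm (2:ℝ), Real.exp_mul, hlu, Real.exp_log hun]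
        norm_cast
      rw [h1, ← Real.exp_mul, mul_comm α]
      ring
    rw [this]; push_cast; rfl
  have e3 : ((wt α z : ℝ) : ℂ) = ((1 + α) / Real.pi : ℝ) * Complex.exp (α * Real.log r) := by
    have : wt α z = (1 + α) / Real.pi * Real.exp (α * Real.log r) := by
      unfold wt
      rw [Real.rpow_def_of_pos hr, mul_comm α]
      ring
    rw [this]; push_cast; rfl
  have e4 : (starRingEnd ℂ) (kern α c (phi c z)) = Complex.exp (-((α:ℂ) + 2) * (Real.log s - (starRingEnd ℂ) (Complex.log u))) := by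
    unfold kern
    rw [one_sub_conj_phi hc hz, log_div_real hs hre, ← Complex.exp_conj]
    congr 1
    simp only [map_mul, map_neg, map_add, Complex.conj_ofReal, map_ofNat, map_sub]
  have e5 : kern α c z = Complex.exp (-((α:ℂ) + 2) * Complex.log u) := rfl
  rw [e1, e2, e3, e4, e5]
  rw [show ∀ x y p q : ℂ, x * (y * p * q) = y * (x * p * q) from fun _ _ _ _ => by ring]
  rw [← Complex.exp_add, ← Complex.exp_add, mul_assoc, ← Complex.exp_add]
  congr 2
  have : 2 * (lu:ℂ) * (2 + α) = (Complex.log u + (starRingEnd ℂ) (Complex.log u)) * (2 + α) := by rw [hlu2]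
  linear_combination -this

end Pool.Agent.Lib.MP_70ee11_an
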