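import Mathlib
import Pool.Agent.Lib.MP_70ee11_an.Mobius

set_option linter.style.longLine false
set_option linter.unusedVariables false
set_option linter.unusedSectionVars false

open MeasureTheory Set Filter Topology Metric

namespace Pool.Agent.Lib.MP_70ee11_an

lemma measurable_kern (α : ℝ) (c : ℂ) : Measurable (kern α c) := by
  unfold kern
  fun_prop

lemma mem_slit {c z : ℂ} (hc : c ∈ ball (0:ℂ) 1) (hz : ‖z‖ ≤ 1) : 1 - (starRingEnd ℂ) c * z ∈ Complex.slitPlane := by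
  rw [Complex.mem_slitPlane_iff]
  exact Or.inl (re_pos hc hz)

lemma differentiableAt_kern (α : ℝ) {c z : ℂ} (hc : c ∈ ball (0:ℂ) 1) (hz : ‖z‖ ≤ 1) : DifferentiableAt ℂ (kern α c) z := by
  unfold kern
  have h1 : DifferentiableAt ℂ (fun z : ℂ => 1 - (starRingEnd ℂ) c * z) z := by fun_prop
  exact ((h1.clog (mem_slit hc hz)).const_mul _).cexp

lemma norm_kern_le {α : ℝ} (hα : 0 < α) {c z : ℂ} (hc : c ∈ ball (0:ℂ) 1) (hz : ‖z‖ ≤ 1) : 
    ‖kern α c z‖ ≤ Real.exp (-(α + 2) * Real.log (1 - ‖c‖)) := by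
  have hc' : ‖c‖ < 1 := by simpa using hc
  unfold kern
  rw [Complex.norm_exp]
  apply Real.exp_le_exp.mpr
  have h1 : (-((α:ℂ) + 2) * Complex.log (1 - (starRingEnd ℂ) c * z)).re = -(α + 2) * Real.log ‖1 - (starRingEnd ℂ) c * z‖ := by
    have : (-((α:ℂ) + 2)) = ((-(α+2) : ℝ) : ℂ) := by push_cast; ring
    rw [this, Complex.re_ofReal_mul, Complex.log_re]
  rw [h1]
  have h2 : 1 - ‖c‖ ≤ ‖1 - (starRingEnd ℂ) c * z‖ := by
    have h3 : ‖(1:ℂ)‖ - ‖(starRingEnd ℂ) c * z‖ ≤ ‖1 - (starRingEnd ℂ) c * z‖ := norm_sub_norm_le _ _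
    rw [norm_one, norm_mul, RCLike.norm_conj] at h3
    nlinarith [norm_nonneg c, norm_nonneg z]
  have h3 : Real.log (1 - ‖c‖) ≤ Real.log ‖1 - (starRingEnd ℂ) c * z‖ := Real.log_le_log (by linarith) h2
  nlinarith

lemma kern_zero (α : ℝ) (c : ℂ) : kern α c 0 = 1 := by
  simp [kern]

lemma integrable_kern_mul {α : ℝ} (hα : 0 < α) {c : ℂ} (hc : c ∈ ball (0:ℂ) 1) {g : ℂ → ℂ} (hgi : Integrable g (mu α)) : 
    Integrable (fun z => (starRingEnd ℂ) (kern α c z) * g z) (mu α) := by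
  apply hgi.bdd_mul (c := Real.exp (-(α + 2) * Real.log (1 - ‖c‖)))
  · exact (Complex.continuous_conj.measurable.comp (measurable_kern α c)).aestronglyMeasurable
  · filter_upwards [ae_mem_ball] with z hz
    rw [RCLike.norm_conj]
    exact norm_kern_le hα hc (mem_ball_zero_iff.mp hz).le

/-- reproducing formula -/
theorem repr {α : ℝ} (hα : 0 < α) {c : ℂ} (hc : c ∈ ball (0:ℂ) 1) {g : ℂ → ℂ} 
    (hg : DifferentiableOn ℂ g (ball (0:ℂ) 1)) (hgi : Integrable g (mu α)) : 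
    ∫ z, (starRingEnd ℂ) (kern α c z) * g z ∂(mu α) = (mu α).real univ * g c := by
  set F : ℂ → ℂ := fun z => kern α c z * g (phi c z) with hF
  have hFd : DifferentiableOn ℂ F (ball (0:ℂ) 1) := by
    intro z hz
    apply DifferentiableAt.differentiableWithinAt
    apply DifferentiableAt.mul (differentiableAt_kern α hc (mem_ball_zero_iff.mp hz).le)
    have h1 : DifferentiableAt ℂ g (phi c z) := hg.differentiableAt (isOpen_ball.mem_nhds (phi_mem hc hz))
    exact DifferentiableAt.comp (g := g) z h1 (hasDerivAt_phi hc hz).differentiableAt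
  have hf' : ∀ x ∈ ball (0:ℂ) 1, HasFDerivWithinAt (phi c) ((ContinuousLinearMap.toSpanSingleton ℂ (dphi c x) : ℂ →L[ℂ] ℂ).restrictScalars ℝ) (ball (0:ℂ) 1) x := by
    intro x hx
    exact ((hasDerivAt_phi hc hx).hasFDerivAt.restrictScalars ℝ).hasFDerivWithinAt
  have hdet : ∀ x, |((ContinuousLinearMap.toSpanSingleton ℂ (dphi c x) : ℂ →L[ℂ] ℂ).restrictScalars ℝ).det| = ‖dphi c x‖ ^ 2 := by
    intro x; rw [det_complex, abs_of_nonneg (by positivity)]
  set G : ℂ → ℂ := fun z => (wt α z : ℂ) * ((starRingEnd ℂ) (kern α c z) * g z) with hG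
  have hpt : ∀ z ∈ ball (0:ℂ) 1, |((ContinuousLinearMap.toSpanSingleton ℂ (dphi c z) : ℂ →L[ℂ] ℂ).restrictScalars ℝ).det| • G (phi c z) = (wt α z : ℂ) * F z := by
    intro z hz
    rw [hdet, Complex.real_smul, hG, hF]
    simp only
    have := pointwise α hc hz
    calc ((‖dphi c z‖ ^ 2 : ℝ) : ℂ) * ((wt α (phi c z) : ℂ) * ((starRingEnd ℂ) (kern α c (phi c z)) * g (phi c z))) 
        = (((‖dphi c z‖ ^ 2 : ℝ) : ℂ) * (wt α (phi c z) * (starRingEnd ℂ) (kern α c (phi c z)))) * g (phi c z) := by ring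
      _ = _ := by rw [this]; ring
  have hGi : IntegrableOn G (ball (0:ℂ) 1) := (integrable_mu hα _).mp (integrable_kern_mul hα hc hgi)
  have hFi : Integrable F (mu α) := by
    rw [integrable_mu hα]
    have h1 : IntegrableOn G (phi c '' (ball (0:ℂ) 1)) := by rw [phi_image hc]; exact hGi
    rw [integrableOn_image_iff_integrableOn_abs_det_fderiv_smul volume measurableSet_ball hf' (phi_inj hc)] at h1
    exact h1.congr_fun hpt measurableSet_ball
  calc ∫ z, (starRingEnd ℂ) (kern α c z) * g z ∂(mu α) = ∫ z in ball (0:ℂ) 1, G z := integral_mu hα _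
    _ = ∫ z in phi c '' (ball (0:ℂ) 1), G z := by rw [phi_image hc]
    _ = ∫ z in ball (0:ℂ) 1, |((ContinuousLinearMap.toSpanSingleton ℂ (dphi c z) : ℂ →L[ℂ] ℂ).restrictScalars ℝ).det| • G (phi c z) := 
        integral_image_eq_integral_abs_det_fderiv_smul volume measurableSet_ball hf' (phi_inj hc) G
    _ = ∫ z in ball (0:ℂ) 1, (wt α z : ℂ) * F z := setIntegral_congr_fun measurableSet_ball hpt
    _ = ∫ z, F z ∂(mu α) := (integral_mu hα F).symm
    _ = (mu α).real univ * F 0 := mean_value hα hFd hFi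
    _ = (mu α).real univ * g c := by rw [hF]; simp only; rw [kern_zero, phi_zero, one_mul]

/-- L2 version -/
lemma memLp_kern {α : ℝ} (hα : 0 < α) {c : ℂ} (hc : c ∈ ball (0:ℂ) 1) : MemLp (kern α c) 2 (mu α) := by
  have := mu_finite hα
  apply MemLp.of_bound (measurable_kern α c).aestronglyMeasurable (Real.exp (-(α + 2) * Real.log (1 - ‖c‖)))
  filter_upwards [ae_mem_ball] with z hz
  exact norm_kern_le hα hc (mem_ball_zero_iff.mp hz).le

noncomputable def kLp {α : ℝ} (hα : 0 < α) {c : ℂ} (hc : c ∈ ball (0:ℂ) 1) : Lp ℂ 2 (mu α) := (memLp_kern hα hc).toLp _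

lemma inner_kLp {α : ℝ} (hα : 0 < α) {c : ℂ} (hc : c ∈ ball (0:ℂ) 1) (f : Lp ℂ 2 (mu α)) {g : ℂ → ℂ} 
    (hg : DifferentiableOn ℂ g (ball (0:ℂ) 1)) (hfg : (f : ℂ → ℂ) =ᵐ[mu α] g) : 
    inner ℂ (kLp hα hc) f = (mu α).real univ * g c := by
  have := mu_finite hα
  have hfi : Integrable (f : ℂ → ℂ) (mu α) := (Lp.memLp f).integrable (by norm_num)
  have hgi : Integrable g (mu α) := hfi.congr hfg
  rw [← repr hα hc hg hgi, L2.inner_def]
  apply integral_congr_ae
  filter_upwards [(memLp_kern hα hc).coeFn_toLp, hfg] with z h1 h2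
  unfold kLp
  rw [h1, h2]
  simp only [RCLike.inner_apply]
  ring

lemma norm_kLp_le {α : ℝ} (hα : 0 < α) {c : ℂ} (hc : c ∈ ball (0:ℂ) 1) : 
    ‖kLp hα hc‖ ≤ ((mu α).real univ) ^ (1 / 2 : ℝ) * Real.exp (-(α + 2) * Real.log (1 - ‖c‖)) := by
  have := mu_finite hα
  have hb : ∀ᵐ z ∂(mu α), ‖(kLp hα hc : ℂ → ℂ) z‖ ≤ Real.exp (-(α + 2) * Real.log (1 - ‖c‖)) := by
    filter_upwards [(memLp_kern hα hc).coeFn_toLp, ae_mem_ball] with z h1 hz
    unfold kLp
    rw [h1]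
    exact norm_kern_le hα hc (mem_ball_zero_iff.mp hz).le
  have h := Lp.norm_le_of_ae_bound (p := 2) (f := kLp hα hc) (Real.exp_nonneg _) hb
  refine h.trans (le_of_eq ?_)
  rw [measureUnivNNReal]
  congr 1
  norm_num
  rfl

end Pool.Agent.Lib.MP_70ee11_an
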