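import Mathlib
import Pool.Agent.Lib.MP_70ee11_an.Repr

set_option linter.style.longLine false
set_option linter.unusedVariables false
set_option linter.unusedSectionVars false

open MeasureTheory Set Filter Topology Metric

namespace Pool.Agent.Lib.MP_70ee11_an

variable {α : ℝ} (hα : 0 < α)

include hα in
/-- limits of holomorphic functions in L2 are holomorphic -/
lemma limit_holo {F : ℕ → Lp ℂ 2 (mu α)} {f : Lp ℂ 2 (mu α)} (hF : Tendsto F atTop (𝓝 f)) {g : ℕ → ℂ → ℂ} 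
    (hg : ∀ n, DifferentiableOn ℂ (g n) (ball (0:ℂ) 1)) (hFg : ∀ n, (F n : ℂ → ℂ) =ᵐ[mu α] g n) : 
    ∃ G : ℂ → ℂ, DifferentiableOn ℂ G (ball (0:ℂ) 1) ∧ (f : ℂ → ℂ) =ᵐ[mu α] G ∧ 
      ∀ c ∈ ball (0:ℂ) 1, Tendsto (fun n => g n c) atTop (𝓝 (G c)) := by
  classical
  have hfin := mu_finite hα
  have hm := mu_pos hα
  set m := (mu α).real univ with hmdef
  have hmc : (m:ℂ) ≠ 0 := by exact_mod_cast hm.ne'
  let G : ℂ → ℂ := fun c => if hc : c ∈ ball (0:ℂ) 1 then (m:ℂ)⁻¹ * inner ℂ (kLp hα hc) f else 0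
  have hdiff : ∀ n c (hc : c ∈ ball (0:ℂ) 1), g n c - G c = (m:ℂ)⁻¹ * inner ℂ (kLp hα hc) (F n - f) := by
    intro n c hc
    have h1 := inner_kLp hα hc (F n) (hg n) (hFg n)
    simp only [G, hc, dif_pos]
    rw [inner_sub_right, h1, mul_sub, ← mul_assoc, inv_mul_cancel₀ hmc, one_mul]
  have hbound : ∀ n c (hc : c ∈ ball (0:ℂ) 1), ‖g n c - G c‖ ≤ m⁻¹ * (m ^ (1 / 2 : ℝ) * Real.exp (-(α + 2) * Real.log (1 - ‖c‖))) * ‖F n - f‖ := by
    intro n c hc
    rw [hdiff n c hc, norm_mul, norm_inv, Complex.norm_real, Real.norm_of_nonneg hm.le]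
    have h1 := norm_inner_le_norm (𝕜 := ℂ) (kLp hα hc) (F n - f)
    have h2 := norm_kLp_le hα hc
    rw [mul_assoc]
    gcongr
    exact h1.trans (by gcongr)
  have hnorm : Tendsto (fun n => ‖F n - f‖) atTop (𝓝 0) := by
    have := hF.sub_const f
    rw [sub_self] at this
    simpa using this.norm
  have hlu : TendstoLocallyUniformlyOn g G atTop (ball (0:ℂ) 1) := by
    rw [tendstoLocallyUniformlyOn_iff_forall_isCompact isOpen_ball]
    intro K hK hKc
    rcases K.eq_empty_or_nonempty with hne | hne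
    · rw [hne]; exact tendstoUniformlyOn_empty
    obtain ⟨x, hxK, hx⟩ := hKc.exists_isMaxOn hne continuous_norm.continuousOn
    have hx1 : ‖x‖ < 1 := by have := hK hxK; simpa using this
    rw [Metric.tendstoUniformlyOn_iff]
    intro ε hε
    set C : ℝ := m⁻¹ * (m ^ (1 / 2 : ℝ) * Real.exp (-(α + 2) * Real.log (1 - ‖x‖))) with hC
    have hC0 : 0 ≤ C := by positivity
    have h1 : Tendsto (fun n => C * ‖F n - f‖) atTop (𝓝 0) := by
      have := hnorm.const_mul C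
      simpa using this
    filter_upwards [h1.eventually_lt_const hε] with n hn c hc
    rw [dist_comm, dist_eq_norm]
    refine lt_of_le_of_lt (hbound n c (hK hc)) (lt_of_le_of_lt ?_ hn)
    rw [hC]
    have hcx : ‖c‖ ≤ ‖x‖ := hx hc
    have h2 : Real.log (1 - ‖x‖) ≤ Real.log (1 - ‖c‖) := Real.log_le_log (by linarith) (by linarith)
    have h3 : -(α + 2) * Real.log (1 - ‖c‖) ≤ -(α + 2) * Real.log (1 - ‖x‖) := by nlinarith
    gcongr
  have hGd : DifferentiableOn ℂ G (ball (0:ℂ) 1) := hlu.differentiableOn (Eventually.of_forall hg) isOpen_ball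
  have hpt : ∀ c ∈ ball (0:ℂ) 1, Tendsto (fun n => g n c) atTop (𝓝 (G c)) := fun c hc => hlu.tendsto_at hc
  refine ⟨G, hGd, ?_, hpt⟩
  have hmeas : TendstoInMeasure (mu α) (fun n => (F n : ℂ → ℂ)) atTop f := tendstoInMeasure_of_tendsto_Lp hF
  obtain ⟨ns, hns, hae⟩ := hmeas.exists_seq_tendsto_ae
  have hall : ∀ᵐ z ∂(mu α), ∀ n, (F n : ℂ → ℂ) z = g n z := ae_all_iff.mpr hFg
  filter_upwards [hae, hall, ae_mem_ball] with z h1 h2 h3
  have h4 : Tendsto (fun k => (F (ns k) : ℂ → ℂ) z) atTop (𝓝 (G z)) := by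
    simp only [h2]
    exact (hpt z h3).comp hns.tendsto_atTop
  exact tendsto_nhds_unique h1 h4

/-- the invariant subspace of functions vanishing at `a` -/
noncomputable def VV (α : ℝ) (a : ℂ) : Submodule ℂ (Lp ℂ 2 (mu α)) where
  carrier := {f | ∃ g : ℂ → ℂ, DifferentiableOn ℂ g (ball (0:ℂ) 1) ∧ (f : ℂ → ℂ) =ᵐ[mu α] g ∧ g a = 0}
  add_mem' := by
    rintro f f' ⟨g, h1, h2, h3⟩ ⟨g', h1', h2', h3'⟩
    refine ⟨fun z => g z + g' z, h1.add h1', ?_, by simp [h3, h3']⟩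
    filter_upwards [Lp.coeFn_add f f', h2, h2'] with z e1 e2 e3
    rw [e1, Pi.add_apply, e2, e3]
  zero_mem' := by
    refine ⟨fun _ => 0, differentiableOn_const _, ?_, rfl⟩
    filter_upwards [Lp.coeFn_zero ℂ 2 (mu α)] with z e1
    rw [e1]; rfl
  smul_mem' := by
    rintro c f ⟨g, h1, h2, h3⟩
    refine ⟨fun z => c * g z, h1.const_mul c, ?_, by simp [h3]⟩
    filter_upwards [Lp.coeFn_smul c f, h2] with z e1 e2
    rw [e1, Pi.smul_apply, e2, smul_eq_mul]

lemma mem_VV {a : ℂ} {f : Lp ℂ 2 (mu α)} : f ∈ VV α a ↔ ∃ g : ℂ → ℂ, DifferentiableOn ℂ g (ball (0:ℂ) 1) ∧ (f : ℂ → ℂ) =ᵐ[mu α] g ∧ g a = 0 := Iff.rfl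

include hα in
lemma closed_VV {a : ℂ} (ha : a ∈ ball (0:ℂ) 1) : IsClosed (VV α a : Set (Lp ℂ 2 (mu α))) := by
  apply IsSeqClosed.isClosed
  intro F f hF hlim
  have h1 : ∀ n, ∃ g : ℂ → ℂ, DifferentiableOn ℂ g (ball (0:ℂ) 1) ∧ (F n : ℂ → ℂ) =ᵐ[mu α] g ∧ g a = 0 := fun n => hF n
  choose g hg hFg hga using h1
  obtain ⟨G, hG, hfG, hpt⟩ := limit_holo hα hlim hg hFg
  refine ⟨G, hG, hfG, ?_⟩
  have h2 := hpt a ha
  simp only [hga] at h2
  exact (tendsto_nhds_unique h2 tendsto_const_nhds)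

lemma bounded_memLp (hfin : IsFiniteMeasure (mu α)) {g : ℂ → ℂ} (hg : DifferentiableOn ℂ g (ball (0:ℂ) 1)) {C : ℝ} 
    (hC : ∀ z ∈ ball (0:ℂ) 1, ‖g z‖ ≤ C) : MemLp g 2 (mu α) := by
  have hac : mu α ≪ volume.restrict (ball (0:ℂ) 1) := withDensity_absolutelyContinuous _ _
  have hm : AEStronglyMeasurable g (mu α) := (hg.continuousOn.aestronglyMeasurable measurableSet_ball).mono_ac hac
  apply MemLp.of_bound hm C
  filter_upwards [ae_mem_ball] with z hz using hC z hz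

lemma exists_mul_z {a : ℂ} {f : Lp ℂ 2 (mu α)} (hf : f ∈ VV α a) : ∃ g ∈ VV α a, (g : ℂ → ℂ) =ᵐ[mu α] fun z => z * f z := by
  have h1 : MemLp (fun z => z * (f : ℂ → ℂ) z) 2 (mu α) := by
    apply (Lp.memLp f).of_le
    · exact measurable_id.aestronglyMeasurable.mul (Lp.memLp f).aestronglyMeasurable
    · filter_upwards [ae_mem_ball] with z hz
      rw [norm_mul]
      have := (mem_ball_zero_iff.mp hz).le
      nlinarith [norm_nonneg ((f : ℂ → ℂ) z)]
  obtain ⟨g, hg1, hg2, hg3⟩ := hf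
  refine ⟨h1.toLp _, ⟨fun z => z * g z, differentiableOn_id.mul hg1, ?_, by simp [hg3]⟩, h1.coeFn_toLp⟩
  filter_upwards [h1.coeFn_toLp, hg2] with z e1 e2
  rw [e1, e2]

include hα in
/-- the main step -/
lemma not_generated {a b : ℂ} (ha : a ∈ ball (0:ℂ) 1) (hb : b ∈ ball (0:ℂ) 1) (ha0 : a ≠ 0) (hab : a ≠ b) 
    (hk : kern α b a = kern α a a) : 
    ¬ (VV α a ≤ (Submodule.span ℂ {h : Lp ℂ 2 (mu α) | ∃ p : Polynomial ℂ, ∃ w ∈ VV α a,
                (∀ f ∈ VV α a, ∀ g ∈ VV α a,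
                    (g : ℂ → ℂ) =ᵐ[mu α] (fun z => z * f z) → inner ℂ g w = 0) ∧
                (h : ℂ → ℂ) =ᵐ[mu α] fun z => p.eval z * w z}).topologicalClosure) := by
  intro hle
  have hfin := mu_finite hα
  have hm := mu_pos hα
  have hmc : ((mu α).real univ : ℂ) ≠ 0 := by exact_mod_cast hm.ne'
  -- the function h
  set h : ℂ → ℂ := fun z => kern α b z - kern α a z with hh
  have hhd : ∀ z, ‖z‖ ≤ 1 → DifferentiableAt ℂ h z := fun z hz => 
    (differentiableAt_kern α hb hz).sub (differentiableAt_kern α ha hz)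
  have hhball : DifferentiableOn ℂ h (ball (0:ℂ) 1) := fun z hz => (hhd z (mem_ball_zero_iff.mp hz).le).differentiableWithinAt
  have hh0 : h 0 = 0 := by simp [hh, kern_zero]
  have hha : h a = 0 := by simp [hh, hk]
  set f0 : ℂ → ℂ := dslope h 0 with hf0
  have hmem0 : ball (0:ℂ) 1 ∈ 𝓝 (0:ℂ) := isOpen_ball.mem_nhds (mem_ball_self one_pos)
  have hmem0' : closedBall (0:ℂ) 1 ∈ 𝓝 (0:ℂ) := closedBall_mem_nhds _ one_pos
  have hf0d : DifferentiableOn ℂ f0 (ball (0:ℂ) 1) := (Complex.differentiableOn_dslope hmem0).mpr hhball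
  have hf0c : ContinuousOn f0 (closedBall (0:ℂ) 1) := by
    rw [hf0, continuousOn_dslope hmem0']
    refine ⟨fun z hz => (hhd z (by simpa using hz)).continuousAt.continuousWithinAt, hhd 0 (by simp)⟩
  obtain ⟨C, hC⟩ := (isCompact_closedBall (0:ℂ) 1).exists_bound_of_continuousOn hf0c
  have hf0m : MemLp f0 2 (mu α) := bounded_memLp hfin hf0d (fun z hz => hC z (ball_subset_closedBall hz))
  have hf0a : f0 a = 0 := by
    have h1 := sub_smul_dslope h 0 a
    rw [hh0, hha, sub_zero, sub_zero, smul_eq_mul] at h1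
    exact (mul_eq_zero.mp h1).resolve_left ha0
  have hF0 : hf0m.toLp f0 ∈ VV α a := ⟨f0, hf0d, hf0m.coeFn_toLp, hf0a⟩
  set H : Lp ℂ 2 (mu α) := kLp hα hb - kLp hα ha with hHdef
  have hHh : (H : ℂ → ℂ) =ᵐ[mu α] h := by
    rw [hHdef]
    filter_upwards [Lp.coeFn_sub (kLp hα hb) (kLp hα ha), (memLp_kern hα hb).coeFn_toLp, (memLp_kern hα ha).coeFn_toLp] with z e1 e2 e3
    rw [e1, Pi.sub_apply]
    unfold kLp
    rw [e2, e3]
  have hHV : H ∈ VV α a := ⟨h, hhball, hHh, hha⟩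
  have hHz : (H : ℂ → ℂ) =ᵐ[mu α] fun z => z * (hf0m.toLp f0 : ℂ → ℂ) z := by
    filter_upwards [hHh, hf0m.coeFn_toLp] with z e1 e2
    rw [e1, e2]
    have h1 := sub_smul_dslope h 0 z
    rw [hh0, sub_zero, sub_zero, smul_eq_mul] at h1
    exact h1.symm
  -- wandering vectors vanish at b
  have hspan : Submodule.span ℂ {h : Lp ℂ 2 (mu α) | ∃ p : Polynomial ℂ, ∃ w ∈ VV α a,
                (∀ f ∈ VV α a, ∀ g ∈ VV α a,
                    (g : ℂ → ℂ) =ᵐ[mu α] (fun z => z * f z) → inner ℂ g w = 0) ∧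
                (h : ℂ → ℂ) =ᵐ[mu α] fun z => p.eval z * w z} ≤ (ℂ ∙ (kLp hα hb))ᗮ := by
    rw [Submodule.span_le]
    rintro u ⟨p, w, hw, horth, hu⟩
    obtain ⟨gw, hgw1, hgw2, hgw3⟩ := hw
    have h1 : inner ℂ H w = 0 := horth _ hF0 H hHV hHz
    rw [hHdef, inner_sub_left, inner_kLp hα hb w hgw1 hgw2, inner_kLp hα ha w hgw1 hgw2, hgw3, mul_zero, sub_zero] at h1
    have h2 : gw b = 0 := (mul_eq_zero.mp h1).resolve_left hmc
    rw [SetLike.mem_coe, Submodule.mem_orthogonal_singleton_iff_inner_right]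
    have h3 : DifferentiableOn ℂ (fun z => p.eval z * gw z) (ball (0:ℂ) 1) := 
      p.differentiable.differentiableOn.mul hgw1
    have h4 : (u : ℂ → ℂ) =ᵐ[mu α] fun z => p.eval z * gw z := by
      filter_upwards [hu, hgw2] with z e1 e2
      rw [e1, e2]
    rw [inner_kLp hα hb u h3 h4]
    simp only [h2, mul_zero]
  have hclos : (Submodule.span ℂ {h : Lp ℂ 2 (mu α) | ∃ p : Polynomial ℂ, ∃ w ∈ VV α a,
                (∀ f ∈ VV α a, ∀ g ∈ VV α a,
                    (g : ℂ → ℂ) =ᵐ[mu α] (fun z => z * f z) → inner ℂ g w = 0) ∧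
                (h : ℂ → ℂ) =ᵐ[mu α] fun z => p.eval z * w z}).topologicalClosure ≤ (ℂ ∙ (kLp hα hb))ᗮ := 
    Submodule.topologicalClosure_minimal _ hspan (Submodule.isClosed_orthogonal _)
  -- the test function z - a
  have htest : MemLp (fun z : ℂ => z - a) 2 (mu α) := by
    apply bounded_memLp hfin (C := 2) (by fun_prop)
    intro z hz
    have h1 := (mem_ball_zero_iff.mp hz).le
    have h2 := (mem_ball_zero_iff.mp ha).le
    calc ‖z - a‖ ≤ ‖z‖ + ‖a‖ := norm_sub_le _ _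
      _ ≤ 2 := by linarith
  have htV : htest.toLp _ ∈ VV α a := ⟨fun z => z - a, by fun_prop, htest.coeFn_toLp, by simp⟩
  have h5 := hclos (hle htV)
  rw [Submodule.mem_orthogonal_singleton_iff_inner_right, inner_kLp hα hb _ (g := fun z => z - a) (by fun_prop) htest.coeFn_toLp] at h5
  have h6 := (mul_eq_zero.mp h5).resolve_left hmc
  exact hab (sub_eq_zero.mp h6).symm

/-- existence of the extra zero for `α > 4` -/
lemma exists_extra_zero {α : ℝ} (hα : 4 < α) : ∃ a b : ℂ, a ∈ ball (0:ℂ) 1 ∧ b ∈ ball (0:ℂ) 1 ∧ a ≠ 0 ∧ a ≠ b ∧ 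
    kern α b a = kern α a a := by
  have hpi := Real.pi_pos
  set θ : ℝ := 2 * Real.pi / (α + 2) with hθ
  have hθ0 : 0 < θ := by positivity
  have hθ1 : θ < Real.pi / 3 := by
    rw [hθ, div_lt_div_iff₀ (by positivity) (by norm_num)]
    nlinarith
  have hcos : 1 / 2 < Real.cos θ := by
    rw [← Real.cos_pi_div_three]
    exact Real.cos_lt_cos_of_nonneg_of_le_pi hθ0.le (by linarith) hθ1
  have hcos1 : Real.cos θ ≤ 1 := Real.cos_le_one θ
  set s : ℝ := (2 * Real.cos θ - 1) / 2 with hs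
  have hs0 : 0 < s := by rw [hs]; linarith
  have hs1 : s ≤ 1 / 2 := by rw [hs]; linarith
  set a : ℝ := Real.sqrt (1 - s) with ha
  have ha2 : a ^ 2 = 1 - s := Real.sq_sqrt (by linarith)
  have ha0 : 0 < a := Real.sqrt_pos.mpr (by linarith)
  have ha1 : a < 1 := by nlinarith
  set b' : ℂ := (1 - s * Complex.exp (θ * Complex.I)) / a with hb'
  have hac : (a : ℂ) ≠ 0 := by exact_mod_cast ha0.ne'
  refine ⟨a, (starRingEnd ℂ) b', ?_, ?_, hac, ?_, ?_⟩
  · rw [mem_ball_zero_iff, Complex.norm_real, Real.norm_of_nonneg ha0.le]; exact ha1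
  · rw [mem_ball_zero_iff, RCLike.norm_conj, hb', norm_div, Complex.norm_real, Real.norm_of_nonneg ha0.le, div_lt_one ha0]
    apply lt_of_pow_lt_pow_left₀ 2 ha0.le
    rw [ha2, ← Complex.normSq_eq_norm_sq, Complex.normSq_apply]
    simp only [Complex.sub_re, Complex.one_re, Complex.re_ofReal_mul, Complex.exp_ofReal_mul_I_re, Complex.sub_im, Complex.one_im, Complex.im_ofReal_mul, Complex.exp_ofReal_mul_I_im]
    have h1 := Real.sin_sq_add_cos_sq θ
    have h2 : 2 * s < 2 * Real.cos θ - 1 + s := by rw [hs]; nlinarith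
    have h3 : (1 - s * Real.cos θ) * (1 - s * Real.cos θ) + (0 - s * Real.sin θ) * (0 - s * Real.sin θ) = 1 - 2 * s * Real.cos θ + s ^ 2 := by
      nlinarith
    rw [h3]
    nlinarith
  · intro heq
    have h1 : (starRingEnd ℂ) (a:ℂ) = b' := by rw [heq, Complex.conj_conj]
    rw [Complex.conj_ofReal, hb', eq_div_iff hac] at h1
    have h2 : (a:ℂ) * a = 1 - s := by
      have : a * a = 1 - s := by rw [← ha2]; ring
      exact_mod_cast this
    rw [h2] at h1
    have h3 : (s:ℂ) * Complex.exp (θ * Complex.I) = s := by linear_combination h1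
    have h4 : Complex.exp (θ * Complex.I) = 1 := by
      have hsc : (s:ℂ) ≠ 0 := by exact_mod_cast hs0.ne'
      have := mul_left_cancel₀ hsc (h3.trans (mul_one _).symm)
      exact this
    have h5 : Real.sin θ = 0 := by
      rw [← Complex.exp_ofReal_mul_I_im, h4]; simp
    exact (Real.sin_pos_of_pos_of_lt_pi hθ0 (by linarith)).ne' h5
  · unfold kern
    have h1 : 1 - (starRingEnd ℂ) ((starRingEnd ℂ) b') * a = Complex.exp (Real.log s + θ * Complex.I) := by
      rw [Complex.conj_conj, hb', div_mul_cancel₀ _ hac, Complex.exp_add, ← Complex.ofReal_exp, Real.exp_log hs0]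
      ring
    have h2 : 1 - (starRingEnd ℂ) (a:ℂ) * a = Complex.exp (Real.log s) := by
      rw [Complex.conj_ofReal, ← Complex.ofReal_exp, Real.exp_log hs0]
      have : a * a = 1 - s := by rw [← ha2]; ring
      have h3 : (a:ℂ) * a = 1 - s := by exact_mod_cast this
      rw [h3]; ring
    rw [h1, h2, Complex.log_exp, Complex.log_exp]
    · rw [mul_add, Complex.exp_add]
      have h3 : -((α:ℂ) + 2) * (θ * Complex.I) = -(2 * Real.pi * Complex.I) := by
        have h4 : (α + 2) * θ = 2 * Real.pi := by rw [hθ]; field_simp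
        have h5 : ((α:ℂ) + 2) * θ = 2 * Real.pi := by exact_mod_cast h4
        linear_combination -(Complex.I) * h5
      rw [h3, Complex.exp_neg, Complex.exp_two_pi_mul_I, inv_one, mul_one]
    · simp [hpi]
    · simp [hpi.le]
    · simp; linarith
    · simp; linarith

end Pool.Agent.Lib.MP_70ee11_an
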